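import Pool.Agent.Work.MP_3e1351_al.Ct.Defs

/-! Snowflake embeddings. -/

namespace Pool.Agent.Work.MP_3e1351_al

/-- `ι` is a bi-Lipschitz embedding of the snowflake of `X` with exponent `θ`. -/
def IsSnowflake {X E : Type} [MetricSpace X] [NormedAddCommGroup E] (θ : ℝ) (ι : X → E) : Prop :=
  ∃ c K : ℝ, 0 < c ∧ ∀ x y, c * dist x y ^ θ ≤ dist (ι x) (ι y) ∧ dist (ι x) (ι y) ≤ K * dist x y ^ θ

end Pool.Agent.Work.MP_3e1351_al
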