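import Pool.Agent.Work.MP_3e1351_al.Ct2.Ker

/-! Signed sums of smoothed differences on a grid. -/

namespace Pool.Agent.Work.MP_3e1351_al.Ct2

open Finset Pool.Agent.Work.MP_3e1351_al.Ct

variable {n : ℕ} {E : Type} [NormedAddCommGroup E] [NormedSpace ℝ E]
variable {s : Finset ℤ} {k : ℤ → ℝ} {σ : ℝ}

/-- integration against a product kernel -/
noncomputable def Sm (s : Finset ℤ) (m : Fin n → ℤ → ℝ) (h : (Fin n → ℤ) → E) : E :=
  ∑ z ∈ Fintype.piFinset (fun _ : Fin n => s), (∏ j, m j (z j)) • h z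

theorem avg_close {ι : Type} (t : Finset ι) (w : ι → ℝ) (h : ι → E) (v : E) (D : ℝ)
    (hw : ∀ i ∈ t, 0 ≤ w i) (h1 : ∑ i ∈ t, w i = 1) (hD : ∀ i ∈ t, ‖h i - v‖ ≤ D) :
    ‖∑ i ∈ t, w i • h i - v‖ ≤ D := by
  have e : ∑ i ∈ t, w i • h i - v = ∑ i ∈ t, w i • (h i - v) := by
    simp only [smul_sub, sum_sub_distrib]
    rw [← sum_smul, h1, one_smul]
  rw [e]
  refine (norm_sum_le _ _).trans ((sum_le_sum (g := fun i => w i * D) fun i hi => ?_).trans ?_)
  · rw [norm_smul, Real.norm_eq_abs, abs_of_nonneg (hw i hi)]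
    exact mul_le_mul_of_nonneg_left (hD i hi) (hw i hi)
  · rw [← sum_mul, h1, one_mul]

theorem Sm_close {m : Fin n → ℤ → ℝ} (h0 : ∀ j y, 0 ≤ m j y) (h1 : ∀ j, ∑ y ∈ s, m j y = 1)
    (h : (Fin n → ℤ) → E) (v : E) (D : ℝ) (hD : ∀ z, (∀ i, z i ∈ s) → ‖h z - v‖ ≤ D) :
    ‖Sm s m h - v‖ ≤ D :=
  avg_close _ _ h v D (fun z _ => prod_nonneg fun j _ => h0 j _)
    (by rw [← prod_univ_sum (fun _ => s) m]; simp [h1])
    fun z hz => hD z (Fintype.mem_piFinset.1 hz)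

theorem Sm_sub (m : Fin n → ℤ → ℝ) (h h' : (Fin n → ℤ) → E) :
    Sm s m h - Sm s m h' = Sm s m fun z => h z - h' z := by
  simp only [Sm, smul_sub, sum_sub_distrib]

theorem Sm_shift {m : Fin n → ℤ → ℝ} (v : Fin n → ℤ)
    (hm : ∀ j y, m j y ≠ 0 → y ∈ s ∧ y + v j ∈ s) (h : (Fin n → ℤ) → E) :
    Sm s (fun j y => m j (y - v j)) h = Sm s m fun z => h (z + v) := by
  have := shift_sum (Fintype.piFinset fun _ : Fin n => s)
    (fun z => (∏ j, m j (z j)) • h (z + v)) v fun z hz => by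
      have h1 : ∀ j, m j (z j) ≠ 0 := fun j =>
        prod_ne_zero_iff.1 (left_ne_zero_of_smul hz) j (mem_univ j)
      exact ⟨Fintype.mem_piFinset.2 fun j => (hm j _ (h1 j)).1,
        Fintype.mem_piFinset.2 fun j => (hm j _ (h1 j)).2⟩
  simp only [sub_add_cancel, Pi.sub_apply] at this
  exact this

theorem H_close (K : Ker s k σ) (h : (Fin n → ℤ) → E) (a : Fin n → ℝ) (ha : ∀ j, |a j| ≤ 1) {D : ℝ}
    (hD : ∀ z η : Fin n → ℤ, (∀ i, 0 ≤ η i ∧ η i ≤ 2) → ‖h (z + η) - h z‖ ≤ D) :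
    ‖Sm s (fun j y => PP k y + a j * AA k y) h - Sm s (fun _ => k) h‖ ≤ D := by
  let sh : Bool → ℤ := fun b => if b then 2 else 0
  let lam : Fin n → Bool → ℝ := fun j b => (1 + a j * sg b) / 2
  have e1 : ∀ j y, PP k y + a j * AA k y = ∑ b : Bool, lam j b * k (y - sh b) := fun j y => by
    simp [lam, sh, sg, PP, AA]
    ring
  have e2 : Sm s (fun j y => PP k y + a j * AA k y) h =
      ∑ η : Fin n → Bool, (∏ j, lam j (η j)) • Sm s (fun j y => k (y - sh (η j))) h := by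
    simp only [Sm, e1, smul_sum]
    rw [sum_comm]
    refine sum_congr rfl fun z _ => ?_
    rw [prod_univ_sum (fun _ => univ) fun j b => lam j b * k (z j - sh b), Fintype.piFinset_univ,
      sum_smul]
    exact sum_congr rfl fun η _ => by rw [prod_mul_distrib, mul_smul]
  rw [e2]
  refine avg_close _ _ _ _ D (fun η _ => prod_nonneg fun j _ => ?_) ?_ fun η _ => ?_
  · have : |a j * sg (η j)| ≤ 1 := by rw [abs_mul, abs_sg, mul_one]; exact ha j
    have := (abs_le.1 this).1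
    show 0 ≤ (1 + a j * sg (η j)) / 2
    linarith
  · rw [← Fintype.piFinset_univ, ← prod_univ_sum (fun _ => univ) lam]
    refine prod_eq_one fun j _ => ?_
    simp [lam, sg]
    ring
  · rw [Sm_shift (m := fun _ => k) (fun j => sh (η j)) (fun j y hy => ⟨(K.sup y hy).1, by
      cases η j
      · simpa [sh] using (K.sup y hy).1
      · simpa [sh] using (K.sup y hy).2⟩) h, Sm_sub, ← sub_zero (Sm _ _ _)]
    refine Sm_close (fun _ => K.nn) (fun _ => K.one) _ 0 D fun z _ => ?_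
    rw [sub_zero]
    exact hD z _ fun i => by cases η i <;> simp [sh]

theorem orth (K : Ker s k σ) (ε : Fin n → Bool) (A B : Finset (Fin n)) :
    ∑ z ∈ Fintype.piFinset (fun _ : Fin n => s), (∏ j, PP k (z j)) *
      ((∏ j ∈ A, sg (ε j) * sc k (z j)) * ∏ j ∈ B, sg (ε j) * sc k (z j)) =
      if A = B then (∑ y ∈ s, PP k y * sc k y ^ 2) ^ A.card else 0 := by
  have e1 : ∀ z : Fin n → ℤ, (∏ j, PP k (z j)) *
      ((∏ j ∈ A, sg (ε j) * sc k (z j)) * ∏ j ∈ B, sg (ε j) * sc k (z j)) =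
      ∏ j, PP k (z j) * ((if j ∈ A then sg (ε j) * sc k (z j) else 1) *
        if j ∈ B then sg (ε j) * sc k (z j) else 1) := fun z => by
    symm
    rw [prod_mul_distrib, prod_mul_distrib, Fintype.prod_ite_mem, Fintype.prod_ite_mem]
  have z0 : ∀ b, ∑ y ∈ s, PP k y * (sg b * sc k y) = 0 := fun b => by
    rw [sum_congr rfl (g := fun y => sg b * AA k y) fun y _ => by rw [K.A_eq]; ring, ← mul_sum,
      K.A_zero, mul_zero]
  rw [sum_congr rfl fun z _ => e1 z, ← prod_univ_sum (fun _ => s) fun j y => PP k y *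
    ((if j ∈ A then sg (ε j) * sc k y else 1) * if j ∈ B then sg (ε j) * sc k y else 1)]
  split_ifs with h
  · subst h
    rw [← prod_const, ← Fintype.prod_ite_mem A]
    refine prod_congr rfl fun j _ => ?_
    split_ifs
    · refine sum_congr rfl fun y _ => ?_
      cases ε j <;> simp [sg, sq]
    · simp only [mul_one, K.P_one]
  · obtain ⟨j, hj⟩ : ∃ j, ¬ (j ∈ A ↔ j ∈ B) := not_forall.1 fun hh => h (Finset.ext hh)
    refine prod_eq_zero (mem_univ j) ?_
    by_cases h1 : j ∈ A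
    · have h2 : j ∉ B := fun h2 => hj ⟨fun _ => h2, fun _ => h1⟩
      simp only [if_pos h1, if_neg h2, mul_one, z0]
    · have h2 : j ∈ B := by
        by_contra h2
        exact hj ⟨fun h3 => absurd h3 h1, fun h3 => absurd h3 h2⟩
      simp only [if_neg h1, if_pos h2, one_mul, z0]

theorem tail (K : Ker s k σ) (ε : Fin n → Bool) (β : ℕ → ℝ) {m : ℕ} {Γ δ : ℝ} (hΓ : 0 < Γ)
    (b0 : ∀ j ≤ m, β j = 0) (b1 : ∀ j, m < j → |β j| ≤ Γ) (d0 : 0 < δ) (d1 : δ ≤ 1)
    (hσ : n * σ ≤ δ ^ 2) :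
    ∑ z ∈ Fintype.piFinset (fun _ : Fin n => s), (∏ j, PP k (z j)) *
      |∑ A : Finset (Fin n), β A.card * ∏ j ∈ A, sg (ε j) * sc k (z j)| ≤ 2 * Γ * δ ^ (m + 1) := by
  obtain ⟨τ, hτ⟩ : ∃ τ, τ = 2 * Γ * δ ^ (m + 1) := ⟨_, rfl⟩
  obtain ⟨u, hu⟩ : ∃ u, u = ∑ y ∈ s, PP k y * sc k y ^ 2 := ⟨_, rfl⟩
  have t0 : 0 < τ := by rw [hτ]; positivity
  have u0 : 0 ≤ u := hu ▸ sum_nonneg fun y _ => mul_nonneg (K.P_nn y) (sq_nonneg _)
  have u1 : n * (u / δ ^ 2) ≤ 1 := by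
    rw [← mul_div_assoc, div_le_one (by positivity)]
    exact (mul_le_mul_of_nonneg_left (hu ▸ K.fis) (Nat.cast_nonneg n)).trans hσ
  have a1 : ∑ z ∈ Fintype.piFinset (fun _ : Fin n => s), (∏ j, PP k (z j)) *
      (∑ A : Finset (Fin n), β A.card * ∏ j ∈ A, sg (ε j) * sc k (z j)) ^ 2 =
      ∑ A : Finset (Fin n), β A.card ^ 2 * u ^ A.card := by
    have e : ∀ z : Fin n → ℤ, (∏ j, PP k (z j)) *
        (∑ A : Finset (Fin n), β A.card * ∏ j ∈ A, sg (ε j) * sc k (z j)) ^ 2 =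
        ∑ A : Finset (Fin n), ∑ B : Finset (Fin n), β A.card * β B.card * ((∏ j, PP k (z j)) *
          ((∏ j ∈ A, sg (ε j) * sc k (z j)) * ∏ j ∈ B, sg (ε j) * sc k (z j))) := fun z => by
      rw [sq, sum_mul_sum, mul_sum]
      refine sum_congr rfl fun A _ => ?_
      rw [mul_sum]
      exact sum_congr rfl fun B _ => by ring
    rw [sum_congr rfl fun z _ => e z, sum_comm]
    refine sum_congr rfl fun A _ => ?_
    rw [sum_comm]
    simp only [← mul_sum, orth K, ← hu, mul_ite, mul_zero, sum_ite_eq, mem_univ, if_true]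
    ring
  have a2 : ∑ A : Finset (Fin n), β A.card ^ 2 * u ^ A.card ≤ τ ^ 2 := by
    have h1 : ∀ A : Finset (Fin n), β A.card ^ 2 * u ^ A.card ≤
        Γ ^ 2 * (δ ^ 2) ^ (m + 1) * ((u / δ ^ 2) ^ A.card * 1 ^ (n - A.card)) := fun A => by
      rcases le_or_gt A.card m with h | h
      · rw [b0 _ h]
        simp only [ne_eq, OfNat.ofNat_ne_zero, not_false_eq_true, zero_pow, zero_mul]
        positivity
      · have c1 : β A.card ^ 2 ≤ Γ ^ 2 := sq_le_sq' (abs_le.1 (b1 _ h)).1 (abs_le.1 (b1 _ h)).2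
        have c2 : (δ ^ 2) ^ A.card ≤ (δ ^ 2) ^ (m + 1) :=
          pow_le_pow_of_le_one (by positivity) (pow_le_one₀ d0.le d1) h
        have c3 : u ^ A.card = (δ ^ 2) ^ A.card * (u / δ ^ 2) ^ A.card := by
          rw [← mul_pow, mul_div_cancel₀ _ (by positivity)]
        rw [c3, one_pow, mul_one, ← mul_assoc]
        exact mul_le_mul_of_nonneg_right (mul_le_mul c1 c2 (by positivity) (by positivity))
          (by positivity)
    refine (sum_le_sum fun A _ => h1 A).trans ?_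
    rw [← mul_sum, Fin.sum_pow_mul_eq_add_pow]
    have c1 : (u / δ ^ 2 + 1) ^ n ≤ 4 := by
      refine (pow_le_pow_left₀ (by positivity) (Real.add_one_le_exp _) n).trans ?_
      rw [← Real.exp_nat_mul]
      exact (Real.exp_le_exp.2 u1).trans (by linarith [Real.exp_one_lt_d9])
    refine (mul_le_mul_of_nonneg_left c1 (by positivity)).trans (le_of_eq ?_)
    rw [hτ]; ring
  have a3 : ∀ R : ℝ, |R| ≤ τ / 2 + R ^ 2 / (2 * τ) := fun R => by
    rw [← sq_abs R, div_add_div _ _ two_ne_zero (by positivity), le_div_iff₀ (by positivity)]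
    nlinarith [sq_nonneg (|R| - τ)]
  have a4 : ∑ z ∈ Fintype.piFinset (fun _ : Fin n => s), ∏ j, PP k (z j) = 1 := by
    rw [← prod_univ_sum (fun _ => s) fun _ y => PP k y]
    simp [K.P_one]
  rw [← hτ]
  refine (sum_le_sum fun z _ => mul_le_mul_of_nonneg_left (a3 _)
    (prod_nonneg fun j _ => K.P_nn _)).trans ?_
  simp only [mul_add, sum_add_distrib, ← mul_div_assoc, ← sum_div, ← sum_mul]
  rw [a1, a4]
  have a5 : (∑ A : Finset (Fin n), β A.card ^ 2 * u ^ A.card) / (2 * τ) ≤ τ / 2 := by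
    rw [div_le_iff₀ (by positivity)]
    linarith
  linarith

theorem coef (K : Ker s k σ) (ε : Fin n → Bool) {m : ℕ} (c ρ : Fin (m + 1) → ℝ) (z : Fin n → ℤ) :
    ∑ j, sg (ε j) * ∏ i, (if i = j then AA k (z i) else PP k (z i)) -
      ∑ i, c i * ∏ j, (PP k (z j) + ρ i * sg (ε j) * AA k (z j)) =
    (∏ j, PP k (z j)) * ∑ A : Finset (Fin n), ((if A.card = 1 then 1 else 0) -
      ∑ i, c i * ρ i ^ A.card) * ∏ j ∈ A, sg (ε j) * sc k (z j) := by
  have e1 : ∀ j, sg (ε j) * ∏ i, (if i = j then AA k (z i) else PP k (z i)) =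
      (∏ j, PP k (z j)) * (sg (ε j) * sc k (z j)) := fun j => by
    rw [prod_congr rfl (g := fun i => PP k (z i) * if i = j then sc k (z i) else 1) fun i _ => by
      split_ifs
      · exact K.A_eq _
      · rw [mul_one], prod_mul_distrib, prod_ite_eq' univ j fun i => sc k (z i), if_pos (mem_univ j)]
    ring
  have e2 : ∀ i, ∏ j, (PP k (z j) + ρ i * sg (ε j) * AA k (z j)) = (∏ j, PP k (z j)) *
      ∑ A : Finset (Fin n), ρ i ^ A.card * ∏ j ∈ A, sg (ε j) * sc k (z j) := fun i => by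
    rw [prod_congr rfl (g := fun j => PP k (z j) * (1 + ρ i * (sg (ε j) * sc k (z j)))) fun j _ => by
      rw [K.A_eq]; ring, prod_mul_distrib, prod_one_add, powerset_univ]
    exact congrArg _ (sum_congr rfl fun A _ => by rw [prod_mul_distrib, prod_const])
  have e3 : ∑ j, sg (ε j) * sc k (z j) = ∑ A : Finset (Fin n),
      (if A.card = 1 then 1 else 0) * ∏ j ∈ A, sg (ε j) * sc k (z j) := by
    simp only [ite_mul, one_mul, zero_mul]
    rw [← sum_filter, ← powerset_univ, ← powersetCard_eq_filter, powersetCard_one, sum_map]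
    simp
  simp only [e1, e2, sub_mul, sum_sub_distrib, mul_sub]
  rw [← mul_sum, e3]
  congr 1
  simp only [sum_mul, mul_sum]
  rw [sum_comm]
  exact sum_congr rfl fun A _ => sum_congr rfl fun i _ => by ring

theorem main_est (K : Ker s k σ) {m : ℕ} (hm : 1 ≤ m) (c ρ : Fin (m + 1) → ℝ) (hρ : ∀ i, |ρ i| ≤ 1)
    (hc : ∀ j ≤ m, ∑ i, c i * ρ i ^ j = if j = 1 then 1 else 0) {Γ δ : ℝ} (hΓ : 0 < Γ)
    (hΓ' : ∑ i, |c i| ≤ Γ) (d0 : 0 < δ) (d1 : δ ≤ 1) (hσ : n * σ ≤ δ ^ 2) (h : (Fin n → ℤ) → E)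
    {D D' : ℝ} (D0 : 0 ≤ D')
    (hD : ∀ z η : Fin n → ℤ, (∀ i, 0 ≤ η i ∧ η i ≤ 2) → ‖h (z + η) - h z‖ ≤ D)
    (hD' : ∀ z, (∀ i, z i ∈ s) → ‖h z‖ ≤ D') (ε : Fin n → Bool) :
    ‖∑ j, sg (ε j) • Sm s (fun i y => if i = j then AA k y else PP k y) h‖ ≤
      Γ * D + 2 * Γ * δ ^ (m + 1) * D' := by
  have D1 : 0 ≤ D := (norm_nonneg _).trans (hD 0 0 fun i => by simp)
  have c0 : ∑ i, c i = 0 := by simpa using hc 0 (Nat.zero_le m)
  have a1 : ‖∑ i, c i • Sm s (fun j y => PP k y + ρ i * sg (ε j) * AA k y) h‖ ≤ Γ * D := by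
    have e : ∑ i, c i • Sm s (fun j y => PP k y + ρ i * sg (ε j) * AA k y) h =
        ∑ i, c i • (Sm s (fun j y => PP k y + ρ i * sg (ε j) * AA k y) h - Sm s (fun _ => k) h) := by
      simp only [smul_sub, sum_sub_distrib]
      rw [← sum_smul, c0, zero_smul, sub_zero]
    rw [e]
    refine (norm_sum_le _ _).trans ((sum_le_sum (g := fun i => |c i| * D) fun i _ => ?_).trans ?_)
    · rw [norm_smul, Real.norm_eq_abs]
      exact mul_le_mul_of_nonneg_left (H_close K h (fun j => ρ i * sg (ε j))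
        (fun j => by rw [abs_mul, abs_sg, mul_one]; exact hρ i) hD) (abs_nonneg _)
    · rw [← sum_mul]
      exact mul_le_mul_of_nonneg_right hΓ' D1
  have a2 : ∑ j, sg (ε j) • Sm s (fun i y => if i = j then AA k y else PP k y) h -
      ∑ i, c i • Sm s (fun j y => PP k y + ρ i * sg (ε j) * AA k y) h =
      ∑ z ∈ Fintype.piFinset (fun _ : Fin n => s), ((∏ j, PP k (z j)) *
        ∑ A : Finset (Fin n), ((if A.card = 1 then 1 else 0) - ∑ i, c i * ρ i ^ A.card) *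
          ∏ j ∈ A, sg (ε j) * sc k (z j)) • h z := by
    simp only [Sm, smul_sum, smul_smul]
    rw [sum_comm, sum_comm (s := (univ : Finset (Fin (m + 1)))), ← sum_sub_distrib]
    refine sum_congr rfl fun z _ => ?_
    rw [← sum_smul, ← sum_smul, ← sub_smul, coef K]
  have a3 := tail K ε (fun j => (if j = 1 then 1 else 0) - ∑ i, c i * ρ i ^ j) (m := m) hΓ
    (fun j hj => by rw [hc j hj, sub_self]) (fun j hj => by
      rw [if_neg (by omega), zero_sub, abs_neg]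
      refine (abs_sum_le_sum_abs _ _).trans ((sum_le_sum fun i _ => ?_).trans hΓ')
      rw [abs_mul, abs_pow]
      exact mul_le_of_le_one_right (abs_nonneg _) (pow_le_one₀ (abs_nonneg _) (hρ i))) d0 d1 hσ
  rw [eq_add_of_sub_eq a2, add_comm (Γ * D)]
  refine (norm_add_le _ _).trans (add_le_add ?_ a1)
  refine (norm_sum_le _ _).trans (le_trans ?_ (mul_le_mul_of_nonneg_right a3 D0))
  rw [sum_mul]
  refine sum_le_sum fun z hz => ?_
  have p0 : 0 ≤ ∏ j, PP k (z j) := prod_nonneg fun j _ => K.P_nn _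
  rw [norm_smul, Real.norm_eq_abs, abs_mul, abs_of_nonneg p0]
  exact mul_le_mul_of_nonneg_left (hD' z (Fintype.mem_piFinset.1 hz))
    (mul_nonneg p0 (abs_nonneg _))

end Pool.Agent.Work.MP_3e1351_al.Ct2
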