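import Pool.Agent.Work.MP_3e1351_al.Ct.Main

/-! A smoothing kernel on the integers and interpolation weights. -/

namespace Pool.Agent.Work.MP_3e1351_al.Ct2

open Finset

theorem shift_sum {G V : Type} [AddCommGroup G] [AddCommMonoid V] (s : Finset G) (φ : G → V) (v : G)
    (h : ∀ y, φ y ≠ 0 → y ∈ s ∧ y + v ∈ s) : ∑ y ∈ s, φ (y - v) = ∑ y ∈ s, φ y := by
  rw [← finsum_eq_sum_of_support_subset φ (s := s) (fun y hy => (h y hy).1),
    ← finsum_eq_sum_of_support_subset (fun y => φ (y - v)) (s := s)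
      (fun y hy => by simpa using (h _ hy).2)]
  exact finsum_comp_equiv (Equiv.subRight v)

/-- the even part of the shifted kernel -/
noncomputable def PP (k : ℤ → ℝ) (y : ℤ) : ℝ := (k y + k (y - 2)) / 2

/-- the odd part of the shifted kernel -/
noncomputable def AA (k : ℤ → ℝ) (y : ℤ) : ℝ := (k (y - 2) - k y) / 2

/-- the score -/
noncomputable def sc (k : ℤ → ℝ) (y : ℤ) : ℝ := AA k y / PP k y

/-- a probability kernel with small score -/
structure Ker (s : Finset ℤ) (k : ℤ → ℝ) (σ : ℝ) : Prop where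
  nn : ∀ y, 0 ≤ k y
  sup : ∀ y, k y ≠ 0 → y ∈ s ∧ y + 2 ∈ s
  one : ∑ y ∈ s, k y = 1
  fis : ∑ y ∈ s, PP k y * sc k y ^ 2 ≤ σ

variable {s : Finset ℤ} {k : ℤ → ℝ} {σ : ℝ}

theorem Ker.P_nn (K : Ker s k σ) (y : ℤ) : 0 ≤ PP k y := by
  have := K.nn y
  have := K.nn (y - 2)
  unfold PP
  positivity

theorem Ker.P_one (K : Ker s k σ) : ∑ y ∈ s, PP k y = 1 := by
  simp only [PP]
  rw [← sum_div, sum_add_distrib, shift_sum s k 2 K.sup, K.one]
  norm_num

theorem Ker.A_zero (K : Ker s k σ) : ∑ y ∈ s, AA k y = 0 := by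
  simp only [AA]
  rw [← sum_div, sum_sub_distrib, shift_sum s k 2 K.sup, sub_self, zero_div]

theorem Ker.A_eq (K : Ker s k σ) (y : ℤ) : AA k y = PP k y * sc k y := by
  by_cases h : PP k y = 0
  · have a := K.nn y
    have b := K.nn (y - 2)
    rw [h, zero_mul]
    unfold PP at h
    unfold AA
    linarith
  · rw [sc, mul_div_cancel₀ _ h]

theorem fis_pt {a b S : ℝ} (hS : 0 < S) (h : |a - b| ≤ 2) :
    (a ^ 2 / S + b ^ 2 / S) / 2 * ((b ^ 2 / S - a ^ 2 / S) / 2 / ((a ^ 2 / S + b ^ 2 / S) / 2)) ^ 2 ≤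
      4 / S := by
  rcases (by positivity : 0 ≤ a ^ 2 + b ^ 2).eq_or_lt with e | e
  · rw [← add_div, ← e]
    simp only [zero_div, zero_mul]
    positivity
  · have h1 : (a - b) ^ 2 ≤ 4 := by
      have := sq_le_sq' (abs_le.1 h).1 (abs_le.1 h).2
      linarith
    have h2 : (a + b) ^ 2 ≤ 2 * (a ^ 2 + b ^ 2) := by nlinarith [sq_nonneg (a - b)]
    have h3 := mul_le_mul h1 h2 (sq_nonneg _) (by norm_num)
    have e2 : (a ^ 2 / S + b ^ 2 / S) / 2 *
        ((b ^ 2 / S - a ^ 2 / S) / 2 / ((a ^ 2 / S + b ^ 2 / S) / 2)) ^ 2 =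
        (a - b) ^ 2 * (a + b) ^ 2 / (2 * (a ^ 2 + b ^ 2)) / S := by
      field_simp
      ring
    rw [e2]
    refine div_le_div_of_nonneg_right ((div_le_iff₀ (by positivity)).2 h3) hS.le

theorem cube_le (r : ℕ) : (r : ℝ) ^ 3 / 3 ≤ ∑ i ∈ range (r + 1), (i : ℝ) ^ 2 := by
  induction r with
  | zero => simp
  | succ r ih =>
    rw [sum_range_succ]
    push_cast
    have : (0 : ℝ) ≤ r := Nat.cast_nonneg r
    nlinarith

theorem exists_ker (r : ℕ) (hr : 1 ≤ r) :
    ∃ k, Ker (Icc (0 : ℤ) (2 * r + 2)) k (60 / (r : ℝ) ^ 2) := by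
  let g : ℤ → ℝ := fun y => max ((r : ℝ) - |(y : ℝ) - r|) 0
  have r1 : (1 : ℝ) ≤ r := by exact_mod_cast hr
  obtain ⟨S, hS⟩ : ∃ S, S = ∑ y ∈ Icc (0 : ℤ) (2 * r + 2), g y ^ 2 := ⟨_, rfl⟩
  have h1 : (r : ℝ) ^ 3 / 3 ≤ S := by
    refine (cube_le r).trans ?_
    have e : ∑ i ∈ range (r + 1), (i : ℝ) ^ 2 =
        ∑ y ∈ (range (r + 1)).map ⟨Nat.cast, Nat.cast_injective (R := ℤ)⟩, g y ^ 2 := by
      rw [sum_map]
      refine sum_congr rfl fun i hi => ?_
      have hi' : (i : ℝ) ≤ r := by exact_mod_cast Nat.lt_succ_iff.1 (mem_range.1 hi)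
      show _ = max ((r : ℝ) - |((i : ℤ) : ℝ) - r|) 0 ^ 2
      rw [Int.cast_natCast, abs_of_nonpos (by linarith), max_eq_left (by
        have : (0 : ℝ) ≤ i := Nat.cast_nonneg i
        linarith)]
      ring
    rw [e, hS]
    refine sum_le_sum_of_subset_of_nonneg (fun y hy => ?_) fun _ _ _ => sq_nonneg _
    obtain ⟨i, hi, rfl⟩ := mem_map.1 hy
    have := mem_range.1 hi
    show (i : ℤ) ∈ _
    rw [mem_Icc]
    omega
  have S0 : 0 < S := lt_of_lt_of_le (by positivity) h1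
  refine ⟨fun y => g y ^ 2 / S, fun y => by positivity, fun y hy => ?_, ?_, ?_⟩
  · have h2 : |(y : ℝ) - r| < r := by
      by_contra hh
      refine hy ?_
      have : g y = 0 := max_eq_right (by linarith [not_lt.1 hh])
      simp [this]
    have h3 : (0 : ℝ) < y := by linarith [(abs_lt.1 h2).1]
    have h4 : (y : ℝ) < 2 * r := by linarith [(abs_lt.1 h2).2]
    have h5 : 0 < y := by exact_mod_cast h3
    have h6 : y < 2 * r := by exact_mod_cast h4
    simp only [mem_Icc]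
    omega
  · rw [← sum_div, ← hS, div_self S0.ne']
  · have h2 : ∀ y : ℤ, |g y - g (y - 2)| ≤ 2 := fun y => by
      refine (abs_max_sub_max_le_abs _ _ _).trans ?_
      rw [sub_sub_sub_cancel_left]
      refine (abs_abs_sub_abs_le_abs_sub _ _).trans (le_of_eq ?_)
      push_cast
      rw [show (y : ℝ) - 2 - r - (y - r) = -2 by ring, abs_neg, abs_two]
    refine (sum_le_card_nsmul _ _ (4 / S) fun y _ => fis_pt S0 (h2 y)).trans ?_
    rw [Int.card_Icc, show (2 * (r : ℤ) + 2 + 1 - 0).toNat = 2 * r + 3 by omega, nsmul_eq_mul,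
      ← mul_div_assoc, div_le_div_iff₀ S0 (by positivity)]
    push_cast
    nlinarith [mul_le_mul_of_nonneg_right r1 (sq_nonneg (r : ℝ))]

theorem weights (m : ℕ) : ∃ c ρ : Fin (m + 1) → ℝ, (∀ i, |ρ i| ≤ 1) ∧
    ∀ j ≤ m, ∑ i, c i * ρ i ^ j = if j = 1 then 1 else 0 := by
  let ρ : Fin (m + 1) → ℝ := fun i => (i : ℝ) / (m + 1)
  have m0 : (0 : ℝ) < m + 1 := by positivity
  have hinj : Set.InjOn ρ (univ : Finset (Fin (m + 1))) := fun i _ j _ e =>
    Fin.ext (by exact_mod_cast (div_left_inj' m0.ne').1 e)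
  refine ⟨fun i => (Lagrange.basis univ ρ i).coeff 1, ρ, fun i => ?_, fun j hj => ?_⟩
  · rw [abs_of_nonneg (by positivity), div_le_one m0]
    exact_mod_cast i.2.le
  · have h := Lagrange.eq_interpolate (f := (Polynomial.X : Polynomial ℝ) ^ j) hinj (by
      rw [Polynomial.degree_X_pow, card_univ, Fintype.card_fin]
      exact_mod_cast Nat.lt_succ_of_le hj)
    have h2 := congrArg (fun p : Polynomial ℝ => p.coeff 1) h
    simp only [Lagrange.interpolate_apply, Polynomial.finsetSum_coeff, Polynomial.coeff_C_mul,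
      Polynomial.eval_pow, Polynomial.eval_X, Polynomial.coeff_X_pow] at h2
    rw [sum_congr rfl fun i _ => mul_comm _ _, ← h2]
    simp only [eq_comm]

end Pool.Agent.Work.MP_3e1351_al.Ct2
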