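import Pool.Agent.Work.MP_3e1351_al.Ct2.Grid

/-! Telescoping along lines and the inequality on a grid. -/

namespace Pool.Agent.Work.MP_3e1351_al.Ct2

open Finset Pool.Agent.Work.MP_3e1351_al.Ct

variable {n : ℕ} {E : Type} [NormedAddCommGroup E] [NormedSpace ℝ E]
variable {s : Finset ℤ} {k : ℤ → ℝ} {σ : ℝ}

/-- the kernel that is not averaged in one coordinate -/
noncomputable def mk (k : ℤ → ℝ) (j i : Fin n) (y : ℤ) : ℝ := if i = j then k y else PP k y

theorem prod_split (j : Fin n) (a b : Fin n → ℝ) :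
    ∏ i, (if i = j then a i else b i) = a j * ∏ i ∈ univ.erase j, b i := by
  rw [← mul_prod_erase univ _ (mem_univ j), if_pos rfl]
  exact congrArg _ (prod_congr rfl fun i hi => if_neg (ne_of_mem_erase hi))

theorem wj (K : Ker s k σ) (j : Fin n) (h : (Fin n → ℤ) → E) :
    Sm s (fun i y => if i = j then AA k y else PP k y) h =
      (1 / 2 : ℝ) • Sm s (mk k j) fun z => h (z + Pi.single j 2) - h z := by
  have hm : ∀ i y, mk k j i y ≠ 0 → y ∈ s ∧ y + (Pi.single j 2 : Fin n → ℤ) i ∈ s := fun i y hy => by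
    by_cases e : i = j
    · subst e
      rw [mk, if_pos rfl] at hy
      simpa using K.sup y hy
    · rw [mk, if_neg e] at hy
      rw [Pi.single_eq_of_ne e, add_zero, and_self]
      by_contra hh
      refine hy ?_
      have a : k y = 0 := by
        by_contra h1
        exact hh (K.sup y h1).1
      have b : k (y - 2) = 0 := by
        by_contra h1
        exact hh (by simpa using (K.sup _ h1).2)
      simp [PP, a, b]
  rw [← Sm_sub, ← Sm_shift _ hm]
  simp only [Sm, ← sum_sub_distrib, smul_sum]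
  refine sum_congr rfl fun z _ => ?_
  have e : ∏ i, mk k j i (z i - (Pi.single j 2 : Fin n → ℤ) i) =
      ∏ i, if i = j then k (z i - 2) else PP k (z i) := prod_congr rfl fun i _ => by
    by_cases e : i = j
    · subst e
      simp [mk]
    · simp [mk, e]
  rw [← sub_smul, smul_smul, e]
  simp only [mk]
  rw [prod_split j (fun i => AA k (z i)), prod_split j (fun i => k (z i - 2)),
    prod_split j (fun i => k (z i))]
  congr 1
  unfold AA
  ring

/-- the smoothed difference in direction `j` -/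
noncomputable def WW (s : Finset ℤ) (k : ℤ → ℝ) (f : (Fin n → ℤ) → E) (j : Fin n) (x : Fin n → ℤ) :
    E := (1 / 2 : ℝ) • Sm s (mk k j) fun z => f (x + z + Pi.single j 2) - f (x + z)

theorem line (K : Ker s k σ) (f : (Fin n → ℤ) → E) {D : ℝ}
    (hD : ∀ x z, (∀ i, z i ∈ s) → ‖f (x + z) - f x‖ ≤ D) (j : Fin n) (x : Fin n → ℤ) (L : ℕ) :
    (‖f (x + Pi.single j (2 * L : ℤ)) - f x‖ - 2 * D) / 2 ≤
      ∑ l ∈ range L, ‖WW s k f j (x + Pi.single j (2 * l : ℤ))‖ := by
  refine le_trans ?_ (norm_sum_le _ _)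
  have e : ∑ l ∈ range L, WW s k f j (x + Pi.single j (2 * l : ℤ)) =
      (1 / 2 : ℝ) • Sm s (mk k j) fun z => f (x + Pi.single j (2 * L : ℤ) + z) - f (x + z) := by
    simp only [WW, Sm, ← smul_sum]
    congr 1
    rw [sum_comm]
    refine sum_congr rfl fun z _ => ?_
    rw [← smul_sum]
    congr 1
    have := sum_range_sub (fun l : ℕ => f (x + Pi.single j (2 * l : ℤ) + z)) L
    simp only [Nat.cast_zero, mul_zero, Pi.single_zero, add_zero] at this
    rw [← this]
    refine sum_congr rfl fun l _ => ?_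
    congr 2
    rw [Nat.cast_succ, mul_add, mul_one, Pi.single_add]
    abel
  have h1 := Sm_close (s := s) (m := mk k j) (fun i y => by
      unfold mk
      split_ifs
      exacts [K.nn y, K.P_nn y]) (fun i => by
      unfold mk
      split_ifs
      exacts [K.one, K.P_one])
    (fun z => f (x + Pi.single j (2 * L : ℤ) + z) - f (x + z))
    (f (x + Pi.single j (2 * L : ℤ)) - f x) (D + D) fun z hz => by
      rw [sub_sub_sub_comm]
      exact (norm_sub_le _ _).trans (add_le_add (hD _ z hz) (hD _ z hz))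
  have h2 := norm_sub_norm_le (f (x + Pi.single j (2 * L : ℤ)) - f x)
    (Sm s (mk k j) fun z => f (x + Pi.single j (2 * L : ℤ) + z) - f (x + z))
  rw [norm_sub_rev] at h1
  rw [e, norm_smul, Real.norm_eq_abs, abs_of_pos one_half_pos]
  linarith

theorem swap_sum {L : ℕ} (j : Fin n) (φ : (Fin n → Fin L) → ℝ) :
    ∑ ω : Fin n → Fin L, ∑ l : Fin L, φ (Function.update ω j l) = L * ∑ ω, φ ω := by
  let t : (Fin n → Fin L) × Fin L → (Fin n → Fin L) × Fin L :=
    fun p => (Function.update p.1 j p.2, p.1 j)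
  have ht : Function.Involutive t := fun p => by simp [t]
  rw [← Fintype.sum_prod_type' fun ω l => φ (Function.update ω j l)]
  refine (Equiv.sum_comp ht.toPerm fun p => φ p.1).trans ?_
  rw [Fintype.sum_prod_type]
  simp [mul_sum]

theorem grid (K : Ker s k σ) {q C : ℝ} (hq : 1 ≤ q) (hn : 0 < n)
    (hC : ∀ x : Fin n → E, (∑ i, ‖x i‖ ^ q) ^ (1 / q) ≤
      C * ((∑ ε : Fin n → Bool, ‖∑ i, sg (ε i) • x i‖) / 2 ^ n))
    (f : (Fin n → ℤ) → E) {D B A : ℝ} {L : ℕ} (hL : 0 < L)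
    (hD : ∀ x z, (∀ i, z i ∈ s) → ‖f (x + z) - f x‖ ≤ D)
    (hB : ∀ x (ε : Fin n → Bool), ‖∑ j, sg (ε j) • WW s k f j x‖ ≤ B)
    (hA : ∀ (x : Fin n → ℤ) j, (∀ i, 0 ≤ x i ∧ x i ≤ 2 * (L : ℤ)) → x j = 0 →
      A ≤ ‖f (x + Pi.single j (2 * L : ℤ)) - f x‖) :
    (n : ℝ) ^ (1 / q) * ((A - 2 * D) / 2) ≤ L * (|C| * B) := by
  let pos : (Fin n → Fin L) → Fin n → ℤ := fun ω i => 2 * (ω i : ℕ)
  have n0 : (0 : ℝ) < n := by exact_mod_cast hn
  have a1 : ∀ x, ∑ j, ‖WW s k f j x‖ ≤ (n : ℝ) ^ (1 - q⁻¹) * (|C| * B) := fun x => by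
    have h1 := Real.inner_le_weight_mul_Lp_of_nonneg univ hq (fun _ => 1)
      (fun j => ‖WW s k f j x‖) (fun _ => zero_le_one) fun _ => norm_nonneg _
    simp only [one_mul, sum_const, card_univ, Fintype.card_fin, nsmul_eq_mul, mul_one] at h1
    refine h1.trans (mul_le_mul_of_nonneg_left ?_ (by positivity))
    have h2 : (∑ ε : Fin n → Bool, ‖∑ i, sg (ε i) • WW s k f i x‖) / 2 ^ n ≤ B := by
      rw [div_le_iff₀ (by positivity)]
      refine (sum_le_card_nsmul _ _ B fun ε _ => hB x ε).trans (le_of_eq ?_)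
      simp [mul_comm]
    rw [← one_div]
    refine (hC _).trans ((mul_le_mul_of_nonneg_right (le_abs_self C) ?_).trans
      (mul_le_mul_of_nonneg_left h2 (abs_nonneg _)))
    exact div_nonneg (sum_nonneg fun _ _ => norm_nonneg _) (by positivity)
  have a2 : ∀ j (ω : Fin n → Fin L), (A - 2 * D) / 2 ≤
      ∑ l : Fin L, ‖WW s k f j (pos (Function.update ω j l))‖ := fun j ω => by
    have e : ∀ l : Fin L, pos (Function.update ω j l) =
        Function.update (pos ω) j 0 + Pi.single j (2 * (l : ℕ) : ℤ) := fun l => by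
      funext i
      by_cases e : i = j
      · subst e
        simp [pos]
      · simp [pos, e]
    simp only [e]
    refine le_trans ?_ ((line K f hD j (Function.update (pos ω) j 0) L).trans
      (le_of_eq (Fin.sum_univ_eq_sum_range _ L).symm))
    have := hA (Function.update (pos ω) j 0) j (fun i => by
      by_cases e : i = j
      · subst e
        simp
      · have := (ω i).2
        simp only [pos, Function.update_of_ne e]
        omega) (by simp)
    linarith
  have N0 : (0 : ℝ) < Fintype.card (Fin n → Fin L) := by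
    have : Nonempty (Fin n → Fin L) := ⟨fun _ => ⟨0, hL⟩⟩
    exact_mod_cast Fintype.card_pos
  have a3 : ∀ j, Fintype.card (Fin n → Fin L) * ((A - 2 * D) / 2) ≤
      L * ∑ ω, ‖WW s k f j (pos ω)‖ := fun j => by
    rw [← swap_sum j fun ω => ‖WW s k f j (pos ω)‖, ← nsmul_eq_mul, ← card_univ]
    exact card_nsmul_le_sum _ _ _ fun ω _ => a2 j ω
  have a4 : n * (Fintype.card (Fin n → Fin L) * ((A - 2 * D) / 2)) ≤
      L * (Fintype.card (Fin n → Fin L) * ((n : ℝ) ^ (1 - q⁻¹) * (|C| * B))) := by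
    have h1 := card_nsmul_le_sum univ _ _ fun j _ => a3 j
    rw [card_univ, Fintype.card_fin, nsmul_eq_mul, ← mul_sum, sum_comm] at h1
    refine h1.trans (mul_le_mul_of_nonneg_left ?_ (Nat.cast_nonneg L))
    rw [← nsmul_eq_mul, ← card_univ]
    exact sum_le_card_nsmul _ _ _ fun ω _ => a1 (pos ω)
  have e : (n : ℝ) = (n : ℝ) ^ (1 - q⁻¹) * (n : ℝ) ^ (1 / q) := by
    rw [← Real.rpow_add n0, one_div, sub_add_cancel, Real.rpow_one]
  have p0 : 0 < (n : ℝ) ^ (1 - q⁻¹) * Fintype.card (Fin n → Fin L) := by positivity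
  refine le_of_mul_le_mul_left ?_ p0
  generalize (n : ℝ) ^ (1 - q⁻¹) = u at e a4 ⊢
  generalize (n : ℝ) ^ (1 / q) = w at e ⊢
  rw [e] at a4
  linarith

theorem WW_est (K : Ker s k σ) {m : ℕ} (hm : 1 ≤ m) (c ρ : Fin (m + 1) → ℝ) (hρ : ∀ i, |ρ i| ≤ 1)
    (hc : ∀ j ≤ m, ∑ i, c i * ρ i ^ j = if j = 1 then 1 else 0) {Γ δ : ℝ} (hΓ : 0 < Γ)
    (hΓ' : ∑ i, |c i| ≤ Γ) (d0 : 0 < δ) (d1 : δ ≤ 1) (hσ : n * σ ≤ δ ^ 2) (f : (Fin n → ℤ) → E)
    {D D' : ℝ} (D0 : 0 ≤ D')
    (hD : ∀ z η : Fin n → ℤ, (∀ i, 0 ≤ η i ∧ η i ≤ 2) → ‖f (z + η) - f z‖ ≤ D)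
    (hD' : ∀ x z, (∀ i, z i ∈ s) → ‖f (x + z) - f x‖ ≤ D') (x : Fin n → ℤ) (ε : Fin n → Bool) :
    ‖∑ j, sg (ε j) • WW s k f j x‖ ≤ Γ * D + 2 * Γ * δ ^ (m + 1) * D' := by
  have h := main_est K hm c ρ hρ hc hΓ hΓ' d0 d1 hσ (fun z => f (x + z) - f x) D0
    (fun z η hη => by rw [sub_sub_sub_cancel_right, ← add_assoc]; exact hD _ η hη) (hD' x) ε
  simp only [wj K, sub_sub_sub_cancel_right, ← add_assoc] at h
  exact h

end Pool.Agent.Work.MP_3e1351_al.Ct2
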