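import Pool.Agent.Work.MP_3e1351_al.Ct2.Line

/-! The exponent of a snowflake of the rational Urysohn space in a space of finite cotype. -/

namespace Pool.Agent.Work.MP_3e1351_al.Ct2

open Finset Pool.Agent.Work.MP_3e1351_al.Ct

variable {X E : Type} [MetricSpace X] [NormedAddCommGroup E] [NormedSpace ℝ E]

theorem exists_grid (hX : IsRationalUrysohn X) (n : ℕ) (N : ℤ) (hN : 0 ≤ N) :
    ∃ φ : (Fin n → ℤ) → X, (∀ (x z : Fin n → ℤ) (D : ℝ), 0 ≤ D → (∀ i, |(z i : ℝ)| ≤ D) →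
      dist (φ (x + z)) (φ x) ≤ D) ∧
      ∀ (x : Fin n → ℤ) j, x j = 0 → (N : ℝ) ≤ dist (φ (x + Pi.single j N)) (φ x) := by
  obtain ⟨ψ, hψ⟩ := hX.universal (Fin n → Set.Icc (0 : ℤ) N) inferInstance fun x y => by
    rw [dist_pi_def]
    refine Finset.sup_induction (p := fun t : NNReal => ∃ q : ℚ, (t : ℝ) = q) ⟨0, by simp⟩
      (fun a ha b hb => ?_) fun i _ => ⟨|((x i : ℤ) : ℚ) - ((y i : ℤ) : ℚ)|, ?_⟩
    · rcases le_total a b with h | h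
      · rwa [sup_eq_right.2 h]
      · rwa [sup_eq_left.2 h]
    · rw [coe_nndist, Subtype.dist_eq, Int.dist_eq]
      push_cast
      rfl
  refine ⟨fun x => ψ fun i => Set.projIcc 0 N hN (x i), fun x z D D0 hz => ?_, fun x j hj => ?_⟩
  · rw [hψ.dist_eq, dist_pi_le_iff D0]
    intro i
    have h1 := Set.abs_projIcc_sub_projIcc hN (c := (x + z) i) (d := x i)
    rw [Pi.add_apply, add_sub_cancel_left] at h1
    rw [Subtype.dist_eq, Int.dist_eq]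
    refine le_trans ?_ (hz i)
    exact_mod_cast h1
  · rw [hψ.dist_eq]
    refine le_trans (le_of_eq ?_) (dist_le_pi_dist _ _ j)
    have : (0 : ℝ) ≤ N := by exact_mod_cast hN
    rw [Subtype.dist_eq, Int.dist_eq, Pi.add_apply, hj, Pi.single_eq_same, zero_add,
      Set.projIcc_right, Set.projIcc_left]
    simp [abs_of_nonneg this]

theorem scale (hX : IsRationalUrysohn X) {q C θ c K : ℝ} (hq : 1 ≤ q) (h0 : 0 < θ) (c0 : 0 < c)
    (K0 : 0 ≤ K) (hC : ∀ (n : ℕ) (x : Fin n → E), (∑ i, ‖x i‖ ^ q) ^ (1 / q) ≤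
      C * ((∑ ε : Fin n → Bool, ‖∑ i, sg (ε i) • x i‖) / 2 ^ n)) (ι : X → E)
    (hι : ∀ x y, c * dist x y ^ θ ≤ dist (ι x) (ι y) ∧ dist (ι x) (ι y) ≤ K * dist x y ^ θ)
    {m : ℕ} (hm : 1 ≤ m) (w ρ : Fin (m + 1) → ℝ) (hρ : ∀ i, |ρ i| ≤ 1)
    (hw : ∀ j ≤ m, ∑ i, w i * ρ i ^ j = if j = 1 then 1 else 0) {Γ δ : ℝ} (hΓ : 0 < Γ)
    (hΓ' : ∑ i, |w i| ≤ Γ) (d0 : 0 < δ) (d1 : δ ≤ 1) {n r L : ℕ} (hn : 0 < n) (hr : 1 ≤ r)
    (hL : 0 < L) (hσ : n * (60 / (r : ℝ) ^ 2) ≤ δ ^ 2) :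
    (n : ℝ) ^ (1 / q) * ((c * (2 * L : ℝ) ^ θ - 2 * (K * (4 * r : ℝ) ^ θ)) / 2) ≤
      L * (|C| * (Γ * (K * 2 ^ θ) + 2 * Γ * δ ^ (m + 1) * (K * (4 * r : ℝ) ^ θ))) := by
  obtain ⟨k, hk⟩ := exists_ker r hr
  obtain ⟨φ, h1, h2⟩ := exists_grid hX n (2 * L) (by positivity)
  have r1 : (1 : ℝ) ≤ r := by exact_mod_cast hr
  have up : ∀ (x z : Fin n → ℤ) (D : ℝ), 0 ≤ D → (∀ i, |(z i : ℝ)| ≤ D) →
      ‖ι (φ (x + z)) - ι (φ x)‖ ≤ K * D ^ θ := fun x z D D0 hz => by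
    rw [← dist_eq_norm]
    exact (hι _ _).2.trans (mul_le_mul_of_nonneg_left
      (Real.rpow_le_rpow dist_nonneg (h1 x z D D0 hz) h0.le) K0)
  have hD' : ∀ x z : Fin n → ℤ, (∀ i, z i ∈ Icc (0 : ℤ) (2 * r + 2)) →
      ‖ι (φ (x + z)) - ι (φ x)‖ ≤ K * (4 * r : ℝ) ^ θ := fun x z hz =>
    up x z _ (by positivity) fun i => by
      have a : (0 : ℝ) ≤ z i := by exact_mod_cast (mem_Icc.1 (hz i)).1
      have b : (z i : ℝ) ≤ 2 * r + 2 := by exact_mod_cast (mem_Icc.1 (hz i)).2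
      rw [abs_of_nonneg a]
      linarith
  refine grid hk hq hn (hC n) (fun x => ι (φ x)) hL hD'
    (WW_est hk hm w ρ hρ hw hΓ hΓ' d0 d1 hσ _ (by positivity)
      (fun z η hη => up z η 2 zero_le_two fun i => ?_) hD') fun x j _ hj => ?_
  · have a : (0 : ℝ) ≤ η i := by exact_mod_cast (hη i).1
    have b : (η i : ℝ) ≤ 2 := by exact_mod_cast (hη i).2
    rwa [abs_of_nonneg a]
  · have a := h2 x j hj
    push_cast at a
    rw [← dist_eq_norm]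
    exact (mul_le_mul_of_nonneg_left (Real.rpow_le_rpow (by positivity) a h0.le) c0.le).trans
      (hι _ _).1

theorem converse (hX : IsRationalUrysohn X) {q θ c K : ℝ} (hq : 1 ≤ q) (h0 : 0 < θ) (c0 : 0 < c)
    (hE : HasCotype q E) (ι : X → E)
    (hι : ∀ x y, c * dist x y ^ θ ≤ dist (ι x) (ι y) ∧ dist (ι x) (ι y) ≤ K * dist x y ^ θ) :
    θ ≤ 1 - 2 / q := by
  by_contra hh
  obtain ⟨C, hC⟩ := hE
  have q0 : 0 < q := by linarith
  have g0 : 0 < 2 / q + θ - 1 := by linarith [not_le.1 hh]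
  replace hι : ∀ x y, c * dist x y ^ θ ≤ dist (ι x) (ι y) ∧
      dist (ι x) (ι y) ≤ |K| * dist x y ^ θ := fun x y =>
    ⟨(hι x y).1, (hι x y).2.trans (mul_le_mul_of_nonneg_right (le_abs_self K) (by positivity))⟩
  obtain ⟨v, hv⟩ := exists_nat_gt (3 / q / (2 / q + θ - 1))
  have e0 : 0 < (2 * v + 1) / q + (v + 2) * θ - (v + 2) := by
    rw [div_lt_iff₀ g0] at hv
    have : (2 * v + 1) / q + (v + 2) * θ - (v + 2) = (v + 2) * (2 / q + θ - 1) - 3 / q := by ring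
    rw [this]
    linarith
  obtain ⟨m', hm'⟩ := exists_nat_gt ((v + 2) * θ)
  obtain ⟨w, ρ, hρ, hw⟩ := weights (m' + 1)
  obtain ⟨Γ, hΓ⟩ : ∃ Γ, Γ = 1 + ∑ i, |w i| := ⟨_, rfl⟩
  have w0 : 0 ≤ ∑ i, |w i| := sum_nonneg fun _ _ => abs_nonneg _
  have Γ0 : 0 < Γ := by linarith
  obtain ⟨Λ, hΛ, Λ0⟩ := ((((tendsto_rpow_atTop h0).comp
    tendsto_natCast_atTop_atTop).eventually_ge_atTop ((2 * (|K| * 4 ^ θ) + 2) / c)).and
      (Filter.eventually_gt_atTop 0)).exists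
  simp only [Function.comp] at hΛ
  rw [div_le_iff₀ c0] at hΛ
  obtain ⟨a, ha, a60⟩ := ((((tendsto_rpow_atTop e0).comp
    tendsto_natCast_atTop_atTop).eventually_gt_atTop
      (Λ * (|C| * (Γ * (|K| * 2 ^ θ) + 2 * Γ * (|K| * 4 ^ θ))))).and
      (Filter.eventually_ge_atTop 60)).exists
  simp only [Function.comp] at ha
  have a1 : (60 : ℝ) ≤ a := by exact_mod_cast a60
  have a0 : (0 : ℝ) < a := by linarith
  have a2 : (1 : ℝ) ≤ a := by linarith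
  have key := scale hX hq h0 c0 (abs_nonneg K) hC ι hι (m := m' + 1) (by omega) w ρ hρ hw Γ0
    (by linarith) (δ := 1 / a) (by positivity) ((div_le_one a0).2 a2) (n := a ^ (2 * v + 1))
    (r := a ^ (v + 2)) (L := Λ * a ^ (v + 2)) (by positivity) (Nat.one_le_pow _ _ (by omega))
    (by positivity) (by
      push_cast
      have e : (a : ℝ) ^ (2 * v + 1) * (60 / ((a : ℝ) ^ (v + 2)) ^ 2) = 60 / a * (1 / a) ^ 2 := by
        field_simp
        ring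
      rw [e]
      exact mul_le_of_le_one_left (by positivity) ((div_le_one a0).2 a1))
  push_cast at key
  obtain ⟨r, hr⟩ : ∃ r : ℝ, r = (a : ℝ) ^ (v + 2) := ⟨_, rfl⟩
  rw [← hr] at key
  have r0 : 0 < r := by rw [hr]; positivity
  have Λ1 : (0 : ℝ) < Λ := by exact_mod_cast Λ0
  have rθ : r ^ θ = (a : ℝ) ^ ((v + 2 : ℝ) * θ) := by
    rw [hr, Real.rpow_mul a0.le, ← Real.rpow_natCast]
    push_cast
    rfl
  have b1 : (4 * r) ^ θ = 4 ^ θ * r ^ θ := Real.mul_rpow (by norm_num) r0.le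
  have b2 : (Λ : ℝ) ^ θ * r ^ θ ≤ (2 * (Λ * r)) ^ θ := by
    rw [← Real.mul_rpow Λ1.le r0.le]
    exact Real.rpow_le_rpow (by positivity) (by linarith [mul_pos Λ1 r0]) h0.le
  have p0 : 0 < r ^ θ := by positivity
  have b3 : r ^ θ ≤ (c * (2 * (Λ * r)) ^ θ - 2 * (|K| * (4 * r) ^ θ)) / 2 := by
    rw [b1]
    nlinarith [mul_le_mul_of_nonneg_left b2 c0.le, mul_le_mul_of_nonneg_right hΛ p0.le]
  have b4 : (1 / a : ℝ) ^ (m' + 1 + 1) * r ^ θ ≤ 1 := by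
    rw [one_div, inv_pow, inv_mul_le_iff₀ (by positivity), mul_one, rθ, ← Real.rpow_natCast]
    refine Real.rpow_le_rpow_of_exponent_le a2 ?_
    push_cast
    linarith
  have b5 : 2 * Γ * (1 / a : ℝ) ^ (m' + 1 + 1) * (|K| * (4 * r) ^ θ) ≤ 2 * Γ * (|K| * 4 ^ θ) := by
    rw [b1]
    have := mul_le_mul_of_nonneg_left b4 (by positivity : 0 ≤ 2 * Γ * (|K| * 4 ^ θ))
    linarith
  have b6 : ((a : ℝ) ^ (2 * v + 1)) ^ (1 / q) * r ^ θ =
      (a : ℝ) ^ ((2 * v + 1) / q + (v + 2) * θ - (v + 2)) * r := by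
    rw [rθ, hr, ← Real.rpow_natCast, ← Real.rpow_natCast, ← Real.rpow_mul a0.le,
      ← Real.rpow_add a0, ← Real.rpow_add a0]
    congr 1
    push_cast
    ring
  have b7 := (mul_le_mul_of_nonneg_left b3 (by positivity :
    0 ≤ ((a : ℝ) ^ (2 * v + 1)) ^ (1 / q))).trans (key.trans (mul_le_mul_of_nonneg_left
      (mul_le_mul_of_nonneg_left (add_le_add le_rfl b5) (abs_nonneg C)) (by positivity)))
  rw [b6] at b7
  have b8 := mul_lt_mul_of_pos_right ha r0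
  linarith

end Pool.Agent.Work.MP_3e1351_al.Ct2
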