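import Pool.Agent.Work.MP_3e1351_al.Ct2.Main
import Pool.Agent.Work.MP_3e1351_al.Ct2.Defs

/-! The sharp exponent. -/

namespace Pool.Agent.Work.MP_3e1351_al.Ct2

open Finset

theorem cotype_mono {E : Type} [NormedAddCommGroup E] [NormedSpace ℝ E] {p q : ℝ} (hp : 0 < p)
    (hpq : p ≤ q) (h : HasCotype p E) : HasCotype q E := by
  obtain ⟨C, hC⟩ := h
  refine ⟨C, fun n x => le_trans ?_ (hC n x)⟩
  have q0 : 0 < q := hp.trans_le hpq
  have hS : 0 ≤ ∑ i, ‖x i‖ ^ p := sum_nonneg fun i _ => by positivity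
  obtain ⟨T, hT⟩ : ∃ T, T = (∑ i, ‖x i‖ ^ p) ^ (1 / p) := ⟨_, rfl⟩
  have T0 : 0 ≤ T := hT ▸ Real.rpow_nonneg hS _
  have Tp : T ^ p = ∑ i, ‖x i‖ ^ p := by
    rw [hT, ← Real.rpow_mul hS, one_div_mul_cancel hp.ne', Real.rpow_one]
  have h1 : ∀ i, ‖x i‖ ≤ T := fun i => by
    rw [← Real.rpow_le_rpow_iff (norm_nonneg _) T0 hp, Tp]
    exact single_le_sum (f := fun i => ‖x i‖ ^ p) (fun i _ => by positivity) (mem_univ i)
  have e : ∀ t : ℝ, 0 ≤ t → t ^ q = t ^ p * t ^ (q - p) := fun t ht => by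
    rw [← Real.rpow_add_of_nonneg ht hp.le (sub_nonneg.2 hpq), add_sub_cancel]
  have h2 : ∑ i, ‖x i‖ ^ q ≤ T ^ q := by
    rw [e T T0, Tp, sum_mul]
    refine sum_le_sum fun i _ => ?_
    rw [e _ (norm_nonneg _)]
    exact mul_le_mul_of_nonneg_left
      (Real.rpow_le_rpow (norm_nonneg _) (h1 i) (sub_nonneg.2 hpq)) (by positivity)
  rw [← hT]
  refine (Real.rpow_le_rpow (sum_nonneg fun i _ => by positivity) h2 (by positivity)).trans
    (le_of_eq ?_)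
  rw [← Real.rpow_mul T0, mul_one_div_cancel q0.ne', Real.rpow_one]

theorem sharp (X : Type) [MetricSpace X] (hX : IsRationalUrysohn X) (q θ : ℝ) (hq : 2 ≤ q)
    (hθ : 0 < θ) :
    [θ ≤ 1 - 2 / q,
      ∃ (E : Type) (_ : NormedAddCommGroup E) (_ : NormedSpace ℝ E) (_ : CompleteSpace E)
        (α : (X ≃ᵢ X) →* (E ≃ᵃⁱ[ℝ] E)) (ι : X → E),
        HasCotype q E ∧ IsContinuousAction α ∧ IsSnowflake θ ι ∧ (∀ g x, α g (ι x) = ι (g x)) ∧
        ∀ (v : E) (R : ℝ), ∃ g, R < dist (α g v) v,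
      ∃ (E : Type) (_ : NormedAddCommGroup E) (_ : NormedSpace ℝ E) (_ : CompleteSpace E)
        (ι : X → E), HasCotype q E ∧ IsSnowflake θ ι].TFAE := by
  have q0 : 0 < q := by linarith
  tfae_have 1 → 2 := by
    intro h
    have : Nonempty X := by
      obtain ⟨φ, -⟩ := hX.universal Unit inferInstance fun x y => ⟨0, by simp⟩
      exact ⟨φ ()⟩
    have t1 : 0 < 1 - θ := by linarith [div_pos two_pos q0]
    have e : 1 - 2 / (2 / (1 - θ)) = θ := by field_simp; ring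
    obtain ⟨E, i1, i2, i3, α, ι, K, a1, a2, a3, a4, a5⟩ :=
      Ct.main X (2 / (1 - θ)) ((lt_div_iff₀ t1).2 (by linarith))
    rw [e] at a4
    refine ⟨E, i1, i2, i3, α, ι, cotype_mono (by positivity) ?_ a1, a2,
      ⟨1 / 2, K, one_half_pos, fun x y => ⟨by linarith [(a4 x y).1], (a4 x y).2⟩⟩, a3, a5 hX⟩
    rw [div_le_iff₀ t1]
    have := (div_le_iff₀ q0).1 (show 2 / q ≤ 1 - θ by linarith)
    linarith
  tfae_have 2 → 3 := by
    rintro ⟨E, i1, i2, i3, -, ι, a1, -, a2, -⟩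
    exact ⟨E, i1, i2, i3, ι, a1, a2⟩
  tfae_have 3 → 1 := by
    rintro ⟨E, i1, i2, -, ι, a1, c, K, c0, a2⟩
    exact converse hX (by linarith) hθ c0 a1 ι a2
  tfae_finish

end Pool.Agent.Work.MP_3e1351_al.Ct2
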